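import Mathlib
import Pool.Agent.H52.BE.Main

/-!
For every closed graph `G` and every field the depth function `i ↦ depth S / J_G ^ i`, `i ≥ 1`, of the
binomial edge ideal `J_G` is non-increasing.
-/

set_option autoImplicit false

namespace Pool.Agent.Results.MP_5e9b13_al.DepthNonincreasing

/-- The polynomial ring `S = K[x_1, ..., x_n, y_1, ..., y_n]`, `x_i = X (Sum.inl i)`,
`y_i = X (Sum.inr i)`. -/
abbrev S (K : Type*) [Field K] (n : ℕ) : Type _ := MvPolynomial (Fin n ⊕ Fin n) K

/-- The binomial `f_ij = x_i y_j - x_j y_i`. -/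
noncomputable def f (K : Type*) [Field K] {n : ℕ} (i j : Fin n) : S K n :=
  MvPolynomial.X (Sum.inl i) * MvPolynomial.X (Sum.inr j)
    - MvPolynomial.X (Sum.inl j) * MvPolynomial.X (Sum.inr i)

/-- The binomial edge ideal `J_G = (f_ij : {i, j} ∈ E(G), i < j)`. -/
noncomputable def J (K : Type*) [Field K] {n : ℕ} (G : SimpleGraph (Fin n)) : Ideal (S K n) :=
  Ideal.span {g | ∃ i j : Fin n, i < j ∧ G.Adj i j ∧ g = f K i j}

/-- The ideal `(x_1, ..., x_n, y_1, ..., y_n)`. -/
noncomputable def maxIdeal (K : Type*) [Field K] (n : ℕ) : Ideal (S K n) :=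
  Ideal.span (Set.range fun v => (MvPolynomial.X v : S K n))

/-- `G` is closed: its vertices can be labelled by `[n]` (the vertex `π i` gets the label `i`) such
that whenever `{i, j}` and `{i, k}` are edges with `i < j < k` or `i > j > k`, also `{j, k}` is an
edge. -/
def Closed {n : ℕ} (G : SimpleGraph (Fin n)) : Prop :=
  ∃ π : Equiv.Perm (Fin n), ∀ i j k : Fin n, G.Adj (π i) (π j) → G.Adj (π i) (π k) →
    (i < j ∧ j < k) ∨ (k < j ∧ j < i) → G.Adj (π j) (π k)

/-- The depth of `S / I` as a graded `S`-module: the supremum of the lengths of the sequences of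
elements of `(x_1, ..., x_n, y_1, ..., y_n)` which are regular on `S / I`. -/
noncomputable def depth {K : Type*} [Field K] {n : ℕ} (I : Ideal (S K n)) : ℕ∞ :=
  ⨆ rs : {rs : List (S K n) // (∀ r ∈ rs, r ∈ maxIdeal K n) ∧
    RingTheory.Sequence.IsRegular (S K n ⧸ I) rs}, (rs.1.length : ℕ∞)

/-- The depth function of `J_G` is non-increasing for every closed graph. -/
theorem result (K : Type*) [Field K] (n : ℕ) (G : SimpleGraph (Fin n)) (hG : Closed G) (i : ℕ)
    (hi : 1 ≤ i) : depth (J K G ^ (i + 1)) ≤ depth (J K G ^ i) := by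
  obtain ⟨π, hπ⟩ := hG
  have hJ : J K G = Pool.Agent.H52.BE.JG K G := by
    unfold J Pool.Agent.H52.BE.JG
    apply le_antisymm
    · apply Ideal.span_mono
      rintro g ⟨i, j, _, h, rfl⟩
      exact ⟨i, j, h, rfl⟩
    · rw [Ideal.span_le]
      rintro g ⟨i, j, h, rfl⟩
      rcases lt_trichotomy i j with hij | hij | hij
      · exact Ideal.subset_span ⟨i, j, hij, h, rfl⟩
      · subst hij
        exact absurd h (G.irrefl)
      · have h1 : f K j i ∈ Ideal.span {g | ∃ i j : Fin n, i < j ∧ G.Adj i j ∧ g = f K i j} :=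
          Ideal.subset_span ⟨j, i, hij, h.symm, rfl⟩
        have h2 : Pool.Agent.H52.BE.fp K i j = - f K j i := by
          unfold Pool.Agent.H52.BE.fp f
          ring
        rw [h2]
        exact Ideal.neg_mem_iff _ |>.2 h1
  rw [hJ]
  refine Pool.Agent.H52.BE.depth_closed K G (fun v => (π.symm v : ℕ)) ?_ ?_ i hi
  · intro a b hab
    exact π.symm.injective (Fin.ext hab)
  · intro a b c hab hac h
    have := hπ (π.symm a) (π.symm b) (π.symm c) (by simpa using hab) (by simpa using hac)
      (by simpa using h)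
    simpa using this

end Pool.Agent.Results.MP_5e9b13_al.DepthNonincreasing
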